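import Pool.Agent.MP_5f72fe_nt.H25.SpecN

/-! The class number formula from the four rows. -/

namespace Pool.Agent.MP_5f72fe_nt.H76

open Filter Topology NumberField Pool.Agent.MP_5f72fe_nt.H25N
open scoped Real NumberTheorySymbols

theorem jac_norm (m n : ℕ) : ‖((J((m : ℤ) | n) : ℤ) : ℂ)‖ ≤ 1 := by
  rcases jacobiSym.trichotomy (m : ℤ) n with h | h | h <;> simp [h]

theorem res_real :
    Tendsto (fun s : ℝ => ((s : ℂ) - 1) * riemannZeta s) (𝓝[>] 1) (𝓝 1) := by
  have h : Tendsto (fun s : ℝ => (s : ℂ)) (𝓝[>] 1) (𝓝[≠] 1) := by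
    refine tendsto_nhdsWithin_iff.2 ⟨?_, ?_⟩
    · have := (Complex.continuous_ofReal.tendsto 1).mono_left (nhdsWithin_le_nhds (s := Set.Ioi 1))
      simpa using this
    · filter_upwards [self_mem_nhdsWithin] with s hs
      have : (s : ℝ) ≠ 1 := ne_of_gt hs
      simpa using this
  exact riemannZeta_residue_one.comp h

theorem rowCNF : OfCNF := by
  intro h1 h2 h3 h4 K _ _ n s τ hq
  have hz := tendsto_sub_one_mul_dedekindZeta_nhdsGT K
  have hL := h4 n hq.md.1 hq.sf
  have hp := res_real.mul hL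
  have heq : (fun t : ℝ => ((t : ℂ) - 1) * riemannZeta t * LSeries (fun m => (J(m | n) : ℂ)) t)
      =ᶠ[𝓝[>] 1] fun t : ℝ => ((t : ℂ) - 1) * dedekindZeta K t := by
    filter_upwards [self_mem_nhdsWithin] with t ht
    have ht1 : 1 < (t : ℂ).re := by simpa using ht
    have s1 : LSeriesSummable (fun m : ℕ => ((J((m : ℤ) | n) : ℤ) : ℂ)) t :=
      LSeriesSummable_of_bounded_of_one_lt_re (m := 1) (fun m _ => jac_norm m n) ht1
    have s2 : LSeriesSummable 1 (t : ℂ) := LSeriesSummable_one_iff.2 ht1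
    rw [mul_assoc, mul_comm (riemannZeta _), ← LSeries_one_eq_riemannZeta ht1,
      ← LSeries_convolution' s1 s2, dedekindZeta]
    congr 1
    refine LSeries_congr (fun {m} hm => ?_) _
    have hm1 : 1 ≤ m := Nat.one_le_iff_ne_zero.2 hm
    have e1 := h1 K n s τ hq m hm1
    have e2 := h2 n m hq.md.1 hq.sf hm1
    rw [← e1] at e2
    have e3 : ((Nat.card {I : Ideal (𝓞 K) // Ideal.absNorm I = m} : ℕ) : ℂ) =
        ∑ d ∈ m.divisors, ((J((d : ℤ) | n) : ℤ) : ℂ) := by exact_mod_cast e2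
    rw [e3, LSeries.convolution_def]
    simp only [Pi.one_apply, mul_one]
    exact Nat.sum_divisorsAntidiagonal (fun a _ => ((J((a : ℤ) | n) : ℤ) : ℂ))
  have hu := tendsto_nhds_unique (hp.congr' heq) hz
  rw [one_mul, h3 K n s τ hq] at hu
  have hu2 : -π * (BB n : ℝ) / √n = π * Nat.card (ClassGroup (𝓞 K)) / √n := by exact_mod_cast hu
  have hn : (0 : ℝ) < √n := Real.sqrt_pos.2 (by have := hq.md.2; positivity)
  have hpi := Real.pi_pos
  have hu3 : (BB n : ℝ) = -(Nat.card (ClassGroup (𝓞 K)) : ℝ) := by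
    field_simp at hu2
    linarith
  exact_mod_cast hu3

end Pool.Agent.MP_5f72fe_nt.H76
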